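import Mathlib

/-!
# MP_eaeafc: every graph has a permutational 1-11-representant

For every finite simple graph there is a concatenation of permutations of its vertex set that
`1`-`11`-represents it. Take a sequence of permutations from a linear order to its reverse in which
each pair is swapped exactly once, by an adjacent transposition, and repeat the swap three times for
the pairs that are not edges.
-/

set_option autoImplicit false
set_option linter.unusedSectionVars false

namespace Pool.Agent.Results.MP_eaeafc_co.EveryGraph

variable {V : Type} [DecidableEq V]

/-- `w|_{x,y}`: delete all letters other than `x` and `y`. -/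
def restrictTo (x y : V) (w : List V) : List V := w.filter fun z => z = x ∨ z = y

/-- The number of pairs of adjacent positions that carry the same letter. -/
def occ11 : List V → ℕ
  | a :: b :: u => (if a = b then 1 else 0) + occ11 (b :: u)
  | _ => 0

/-- The word `w` `k`-`11`-represents the graph `G`. -/
def Represents (k : ℕ) (w : List V) (G : SimpleGraph V) : Prop :=
  (∀ v, v ∈ w) ∧ ∀ x y, x ≠ y → (G.Adj x y ↔ occ11 (restrictTo x y w) ≤ k)

/-- `p` is a permutation of the vertex set: every vertex occurs exactly once. -/
def IsPerm (p : List V) : Prop := p.Nodup ∧ ∀ v, v ∈ p

/-- `G` is `k`-`11`-represented by a concatenation of permutations. -/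
def PermRepresentable (k : ℕ) (G : SimpleGraph V) : Prop :=
  ∃ ps : List (List V), (∀ p ∈ ps, IsPerm p) ∧ Represents k ps.flatten G

/-! ### Changes in a sequence of words -/

/-- The number of changes in the sequence `s, q_1, q_2, ...`. -/
def chg (s : List V) : List (List V) → ℕ
  | [] => 0
  | q :: qs => (if s = q then 0 else 1) + chg q qs

/-- The last term of the sequence `s, q_1, q_2, ...`. -/
def fin (s : List V) : List (List V) → List V
  | [] => s
  | q :: qs => fin q qs

theorem chg_append (A B : List (List V)) : ∀ s : List V, chg s (A ++ B) = chg s A + chg (fin s A) B := by
  induction A with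
  | nil => intro s; simp [chg, fin]
  | cons q A ih => intro s; simp only [List.cons_append, chg, fin, ih]; ring

theorem fin_append (A B : List (List V)) : ∀ s : List V, fin s (A ++ B) = fin (fin s A) B := by
  induction A with
  | nil => intro s; simp [fin]
  | cons q A ih => intro s; simp only [List.cons_append, fin, ih]

theorem fin_map (f : List V → List V) (A : List (List V)) : ∀ s : List V,
    fin (f s) (A.map f) = f (fin s A) := by
  induction A with
  | nil => intro s; rfl
  | cons q A ih => intro s; simp only [List.map_cons, fin, ih]

theorem chg_const (s : List V) (A : List (List V)) (h : ∀ q ∈ A, q = s) : chg s A = 0 := by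
  induction A with
  | nil => rfl
  | cons q A ih =>
    have h1 : q = s := h q (by simp)
    subst h1
    simp only [chg, if_true, zero_add]
    exact ih fun q' hq' => h q' (by simp [hq'])

theorem occ11_flatten {x y : V} (hxy : x ≠ y) (qs : List (List V)) : ∀ q : List V,
    (q = [x, y] ∨ q = [y, x]) → (∀ q' ∈ qs, q' = [x, y] ∨ q' = [y, x]) →
    occ11 (q ++ qs.flatten) = chg q qs := by
  induction qs with
  | nil =>
    rintro q (rfl | rfl) -
    · simp [occ11, chg, hxy]
    · simp [occ11, chg, hxy.symm]
  | cons q' qs ih =>
    intro q hq h
    have h1 := h q' (by simp)
    have h2 := ih q' h1 (fun q'' hq'' => h q'' (by simp [hq'']))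
    rw [List.flatten_cons, chg, ← h2]
    rcases hq with rfl | rfl <;> rcases h1 with rfl | rfl <;>
      simp [occ11, hxy, hxy.symm]

/-! ### The sequence of permutations -/

open Classical in
/-- Move the letter `a` to the right through the rest of the word (`pre` is the part already
passed); the swap of `a` and `r` is made three times if `a` and `r` are not adjacent in `G`. -/
noncomputable def moves (G : SimpleGraph V) (a : V) : List V → List V → List (List V)
  | _, [] => []
  | pre, r :: rest =>
    (if G.Adj a r then [pre ++ r :: a :: rest]
      else [pre ++ r :: a :: rest, pre ++ a :: r :: rest, pre ++ r :: a :: rest]) ++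
    moves G a (pre ++ [r]) rest

/-- A sequence of permutations that leads from `l` (not included) to the reverse of `l`. -/
noncomputable def perms (G : SimpleGraph V) : List V → List (List V)
  | [] => []
  | a :: l => (perms G l).map (a :: ·) ++ moves G a [] l.reverse

theorem moves_perm (G : SimpleGraph V) (a : V) (rest : List V) : ∀ pre : List V,
    ∀ p ∈ moves G a pre rest, p.Perm (pre ++ a :: rest) := by
  induction rest with
  | nil => intro pre p hp; simp [moves] at hp
  | cons r rest ih =>
    intro pre p hp
    have e1 : (pre ++ r :: a :: rest).Perm (pre ++ a :: r :: rest) :=
      List.Perm.append_left _ (List.Perm.swap _ _ _)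
    rw [moves, List.mem_append] at hp
    rcases hp with hp | hp
    · split_ifs at hp
      · simp only [List.mem_singleton] at hp
        subst hp; exact e1
      · simp only [List.mem_cons, List.not_mem_nil, or_false] at hp
        rcases hp with rfl | rfl | rfl
        · exact e1
        · exact List.Perm.refl _
        · exact e1
    · have := ih (pre ++ [r]) p hp
      rw [List.append_assoc, List.singleton_append] at this
      exact this.trans e1

theorem perms_perm (G : SimpleGraph V) (l : List V) : ∀ p ∈ perms G l, p.Perm l := by
  induction l with
  | nil => intro p hp; simp [perms] at hp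
  | cons a l ih =>
    intro p hp
    rw [perms, List.mem_append] at hp
    rcases hp with hp | hp
    · rw [List.mem_map] at hp
      obtain ⟨q, hq, rfl⟩ := hp
      exact (ih q hq).cons a
    · have := moves_perm G a l.reverse [] p hp
      rw [List.nil_append] at this
      exact this.trans ((List.reverse_perm l).cons a)

theorem fin_moves (G : SimpleGraph V) (a : V) (rest : List V) : ∀ pre : List V,
    fin (pre ++ a :: rest) (moves G a pre rest) = pre ++ rest ++ [a] := by
  induction rest with
  | nil => intro pre; simp [moves, fin]
  | cons r rest ih =>
    intro pre
    have := ih (pre ++ [r])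
    rw [List.append_assoc, List.singleton_append] at this
    rw [moves]
    split_ifs
    · rw [fin_append, fin, fin, this]; simp
    · rw [fin_append, fin, fin, fin, fin, this]; simp

theorem fin_perms (G : SimpleGraph V) (l : List V) : fin l (perms G l) = l.reverse := by
  induction l with
  | nil => rfl
  | cons a l ih =>
    rw [perms, fin_append]
    have := fin_map (fun p => a :: p) (perms G l) l
    rw [ih] at this
    rw [this]
    have := fin_moves G a l.reverse []
    simp only [List.nil_append] at this
    rw [this, List.reverse_cons]

/-- The order of two letters different from `a` does not change while `a` moves. -/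
theorem moves_filter (G : SimpleGraph V) (a x y : V) (hx : a ≠ x) (hy : a ≠ y) (rest : List V) :
    ∀ pre : List V, ∀ q ∈ (moves G a pre rest).map (restrictTo x y),
      q = restrictTo x y (pre ++ a :: rest) := by
  have e : ∀ A B : List V, restrictTo x y (A ++ a :: B) = restrictTo x y (A ++ B) := by
    intro A B
    simp [restrictTo, hx, hy]
  induction rest with
  | nil => intro pre q hq; simp [moves] at hq
  | cons r rest ih =>
    intro pre q hq
    have e1 : restrictTo x y (pre ++ r :: a :: rest) = restrictTo x y (pre ++ a :: r :: rest) := by
      rw [e]
      have := e (pre ++ [r]) rest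
      rw [List.append_assoc, List.append_assoc, List.singleton_append, List.singleton_append] at this
      exact this
    rw [moves, List.map_append, List.mem_append] at hq
    rcases hq with hq | hq
    · split_ifs at hq
      · simp only [List.map_cons, List.map_nil, List.mem_singleton] at hq
        rw [hq, e1]
      · simp only [List.map_cons, List.map_nil, List.mem_cons, List.not_mem_nil, or_false] at hq
        rcases hq with rfl | rfl | rfl
        · exact e1
        · rfl
        · exact e1
    · have := ih (pre ++ [r]) q hq
      rw [List.append_assoc, List.singleton_append] at this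
      rw [this, e1]

section
variable {a y : V}

theorem res_nil (A : List V) (h1 : a ∉ A) (h2 : y ∉ A) : restrictTo a y A = [] := by
  rw [restrictTo, List.filter_eq_nil_iff]
  intro z hz
  simp only [decide_eq_true_eq, not_or]
  exact ⟨fun h => h1 (h ▸ hz), fun h => h2 (h ▸ hz)⟩

theorem res_append (A B : List V) :
    restrictTo a y (A ++ B) = restrictTo a y A ++ restrictTo a y B := by
  simp [restrictTo]

theorem res_left (A : List V) : restrictTo a y (a :: A) = a :: restrictTo a y A := by
  simp [restrictTo]

theorem res_right (A : List V) : restrictTo a y (y :: A) = y :: restrictTo a y A := by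
  simp [restrictTo]

theorem res_other (r : V) (A : List V) (h1 : r ≠ a) (h2 : r ≠ y) :
    restrictTo a y (r :: A) = restrictTo a y A := by
  simp [restrictTo, h1, h2]

/-- After `y` has been passed by `a` nothing changes. -/
theorem moves_after (G : SimpleGraph V) (rest : List V) : ∀ pre : List V,
    restrictTo a y pre = [y] → a ∉ rest → y ∉ rest →
    ∀ q ∈ (moves G a pre rest).map (restrictTo a y), q = [y, a] := by
  induction rest with
  | nil => intro pre _ _ _ q hq; simp [moves] at hq
  | cons r rest ih =>
    intro pre hpre h4 h5 q hq
    have hra : r ≠ a := by rintro rfl; simp at h4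
    have hry : r ≠ y := by rintro rfl; simp at h5
    have h4' : a ∉ rest := fun h => h4 (by simp [h])
    have h5' : y ∉ rest := fun h => h5 (by simp [h])
    have f1 : restrictTo a y (pre ++ r :: a :: rest) = [y, a] := by
      rw [res_append, hpre, res_other r _ hra hry, res_left, res_nil rest h4' h5']; rfl
    have f2 : restrictTo a y (pre ++ a :: r :: rest) = [y, a] := by
      rw [res_append, hpre, res_left, res_other r _ hra hry, res_nil rest h4' h5']; rfl
    rw [moves, List.map_append, List.mem_append] at hq
    rcases hq with hq | hq
    · split_ifs at hq
      · simp only [List.map_cons, List.map_nil, List.mem_singleton] at hq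
        rw [hq, f1]
      · simp only [List.map_cons, List.map_nil, List.mem_cons, List.not_mem_nil, or_false] at hq
        rcases hq with rfl | rfl | rfl
        · exact f1
        · exact f2
        · exact f1
    · refine ih (pre ++ [r]) ?_ h4' h5' q hq
      rw [res_append, hpre, res_other r _ hra hry]; rfl

/-- While `a` moves through a word that contains `y`, the order of `a` and `y` changes once if they
are adjacent and three times if they are not. -/
theorem moves_chg (G : SimpleGraph V) (hy : a ≠ y) (rest : List V) : ∀ pre : List V,
    y ∈ rest → rest.Nodup → a ∉ rest → restrictTo a y pre = [] →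
      (G.Adj a y → chg [a, y] ((moves G a pre rest).map (restrictTo a y)) = 1) ∧
      (¬ G.Adj a y → chg [a, y] ((moves G a pre rest).map (restrictTo a y)) = 3) := by
  induction rest with
  | nil => intro pre h; simp at h
  | cons r rest ih =>
    intro pre hyr hnd har hpre
    have hra : r ≠ a := by rintro rfl; simp at har
    have har' : a ∉ rest := fun h => har (by simp [h])
    have hnd' := List.nodup_cons.1 hnd
    by_cases hry : r = y
    · subst hry
      have f1 : restrictTo a r (pre ++ r :: a :: rest) = [r, a] := by
        rw [res_append, hpre, res_right, res_left, res_nil rest har' hnd'.1]; rfl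
      have f2 : restrictTo a r (pre ++ a :: r :: rest) = [a, r] := by
        rw [res_append, hpre, res_left, res_right, res_nil rest har' hnd'.1]; rfl
      have f3 : chg [r, a] ((moves G a (pre ++ [r]) rest).map (restrictTo a r)) = 0 := by
        apply chg_const
        apply moves_after G rest _ _ har' hnd'.1
        rw [res_append, hpre, res_right]; simp [restrictTo]
      have n1 : [a, r] ≠ [r, a] := by simp [hra]
      have n2 : [r, a] ≠ [a, r] := by simp [hra]
      constructor
      · intro h
        rw [moves, if_pos h, List.map_append, List.map_cons, List.map_nil, f1, List.singleton_append,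
          chg, f3, if_neg n1]
      · intro h
        rw [moves, if_neg h, List.map_append, List.map_cons, List.map_cons, List.map_cons,
          List.map_nil, f1, f2, List.cons_append, List.cons_append, List.cons_append,
          List.nil_append, chg, chg, chg, f3, if_neg n1, if_neg n2]
    · have hyr' : y ∈ rest := by
        rcases List.mem_cons.1 hyr with h | h
        · exact absurd h.symm hry
        · exact h
      have hs : ∃ A B : List V, rest = A ++ y :: B ∧ restrictTo a y A = [] ∧ restrictTo a y B = [] := by
        obtain ⟨A, B, hAB⟩ := List.append_of_mem hyr'
        refine ⟨A, B, hAB, ?_, ?_⟩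
        · apply res_nil
          · intro h; exact har' (by simp [hAB, h])
          · intro h
            have := hnd'.2
            rw [hAB, List.nodup_append] at this
            exact this.2.2 y h y (by simp) rfl
        · apply res_nil
          · intro h; exact har' (by simp [hAB, h])
          · have := hnd'.2
            rw [hAB, List.nodup_append] at this
            exact (List.nodup_cons.1 this.2.1).1
      obtain ⟨A, B, hAB, hA, hB⟩ := hs
      have hrest : restrictTo a y rest = [y] := by
        rw [hAB, res_append, hA, res_right, hB]; rfl
      have f1 : restrictTo a y (pre ++ r :: a :: rest) = [a, y] := by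
        rw [res_append, hpre, res_other r _ hra hry, res_left, hrest]; rfl
      have f2 : restrictTo a y (pre ++ a :: r :: rest) = [a, y] := by
        rw [res_append, hpre, res_left, res_other r _ hra hry, hrest]; rfl
      have hpre' : restrictTo a y (pre ++ [r]) = [] := by
        rw [res_append, hpre, res_other r _ hra hry]; simp [restrictTo]
      have key : chg [a, y] ((moves G a pre (r :: rest)).map (restrictTo a y)) =
          chg [a, y] ((moves G a (pre ++ [r]) rest).map (restrictTo a y)) := by
        rw [moves]
        split_ifs
        · rw [List.map_append, List.map_cons, List.map_nil, f1, List.singleton_append, chg, if_pos rfl,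
            zero_add]
        · rw [List.map_append, List.map_cons, List.map_cons, List.map_cons,
            List.map_nil, f1, f2, List.cons_append, List.cons_append, List.cons_append,
            List.nil_append, chg, chg, chg, if_pos rfl, zero_add, zero_add, zero_add]
      rw [key]
      exact ih (pre ++ [r]) hyr' hnd'.2 har' hpre'

end

theorem restrictTo_comm (x y : V) (w : List V) : restrictTo x y w = restrictTo y x w := by
  unfold restrictTo
  congr 1
  funext z
  simp only [decide_eq_decide]
  tauto

/-- The number of changes of the order of two letters along the whole sequence. -/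
theorem perms_chg (G : SimpleGraph V) (l : List V) : ∀ x y : V, x ≠ y → x ∈ l → y ∈ l → l.Nodup →
    (G.Adj x y → chg (restrictTo x y l) ((perms G l).map (restrictTo x y)) = 1) ∧
    (¬ G.Adj x y → chg (restrictTo x y l) ((perms G l).map (restrictTo x y)) = 3) := by
  induction l with
  | nil => intro x y _ h; simp at h
  | cons a l ih =>
    intro x y hxy hx hy hnd
    have hnd' := List.nodup_cons.1 hnd
    -- the case where `x = a`
    have main : ∀ y : V, a ≠ y → y ∈ l →
        (G.Adj a y → chg (restrictTo a y (a :: l)) ((perms G (a :: l)).map (restrictTo a y)) = 1) ∧
        (¬ G.Adj a y → chg (restrictTo a y (a :: l)) ((perms G (a :: l)).map (restrictTo a y)) = 3) := by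
      intro y hay hyl
      have hl : ∀ p : List V, p.Perm l → restrictTo a y (a :: p) = [a, y] := by
        intro p hp
        rw [res_left]
        congr 1
        have h1 : (restrictTo a y p).Perm (restrictTo a y l) := hp.filter _
        have h2 : restrictTo a y l = [y] := by
          obtain ⟨A, B, hAB⟩ := List.append_of_mem hyl
          have h3 := hnd'.2
          have h4 := hnd'.1
          rw [hAB, List.nodup_append] at h3
          rw [hAB] at h4
          rw [hAB, res_append, res_right, res_nil A (fun h => h4 (by simp [h]))
            (fun h => h3.2.2 y h y (by simp) rfl), res_nil B (fun h => h4 (by simp [h]))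
            (List.nodup_cons.1 h3.2.1).1]
          rfl
        rw [h2] at h1
        exact List.perm_singleton.1 h1
      have h1 : chg (restrictTo a y (a :: l)) (((perms G l).map (a :: ·)).map (restrictTo a y)) = 0 := by
        apply chg_const
        intro q hq
        rw [List.map_map, List.mem_map] at hq
        obtain ⟨p, hp, rfl⟩ := hq
        simp only [Function.comp_apply]
        rw [hl p (perms_perm G l p hp), hl l (List.Perm.refl _)]
      have h2 : fin (restrictTo a y (a :: l)) (((perms G l).map (a :: ·)).map (restrictTo a y)) =
          [a, y] := by
        rw [fin_map (restrictTo a y), fin_map (a :: ·) (perms G l) l, fin_perms,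
          hl _ (List.reverse_perm l)]
      rw [perms, List.map_append, chg_append, h1, h2, zero_add]
      exact moves_chg G hay l.reverse [] (by simpa using hyl) (List.nodup_reverse.2 hnd'.2)
        (by simpa using hnd'.1) (by simp [restrictTo])
    rcases List.mem_cons.1 hx with rfl | hx'
    · have hyl : y ∈ l := by
        rcases List.mem_cons.1 hy with h | h
        · exact absurd h.symm hxy
        · exact h
      exact main y hxy hyl
    · rcases List.mem_cons.1 hy with rfl | hy'
      · have := main x hxy.symm hx'
        have e : restrictTo x y = restrictTo y x := by funext w; exact restrictTo_comm x y w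
        rw [e]
        exact ⟨fun h => this.1 h.symm, fun h => this.2 fun h' => h h'.symm⟩
      · have hax : a ≠ x := by rintro rfl; exact hnd'.1 hx'
        have hay : a ≠ y := by rintro rfl; exact hnd'.1 hy'
        have e1 : ∀ p : List V, restrictTo x y (a :: p) = restrictTo x y p := by
          intro p; exact res_other a p hax hay
        have h1 : ((perms G l).map (a :: ·)).map (restrictTo x y) = (perms G l).map (restrictTo x y) := by
          rw [List.map_map]
          apply List.map_congr_left
          intro p _
          exact e1 p
        have h2 : fin (restrictTo x y l) ((perms G l).map (restrictTo x y)) =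
            restrictTo x y l.reverse := by
          rw [fin_map (restrictTo x y), fin_perms]
        have h3 : chg (restrictTo x y l.reverse) ((moves G a [] l.reverse).map (restrictTo x y)) = 0 := by
          apply chg_const
          intro q hq
          rw [moves_filter G a x y hax hay l.reverse [] q hq, List.nil_append, e1]
        rw [perms, List.map_append, chg_append, h1, e1, h2, h3, add_zero]
        exact ih x y hxy hx' hy' hnd'.2

theorem restrictTo_perm {x y : V} (hxy : x ≠ y) {p : List V} (hp : IsPerm p) :
    restrictTo x y p = [x, y] ∨ restrictTo x y p = [y, x] := by
  have h1 : (restrictTo x y p).Perm [x, y] := by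
    have hnd : (restrictTo x y p).Nodup := hp.1.filter _
    rw [List.perm_ext_iff_of_nodup hnd (by simp [hxy])]
    intro z
    simp only [restrictTo, List.mem_filter, decide_eq_true_eq, List.mem_cons, List.not_mem_nil,
      or_false]
    exact ⟨fun h => h.2, fun h => ⟨hp.2 z, h⟩⟩
  have h2 : (restrictTo x y p).length = 2 := h1.length_eq
  match hq : restrictTo x y p, h2 with
  | [u, v], _ =>
    rw [hq] at h1
    have hu : u ∈ [x, y] := h1.subset (by simp)
    have hv : v ∈ [x, y] := h1.subset (by simp)
    have hnd : [u, v].Nodup := h1.nodup_iff.2 (by simp [hxy])
    simp only [List.mem_cons, List.not_mem_nil, or_false] at hu hv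
    have huv : u ≠ v := by
      rintro rfl; simp at hnd
    rcases hu with rfl | rfl <;> rcases hv with rfl | rfl
    · exact absurd rfl huv
    · left; rfl
    · right; rfl
    · exact absurd rfl huv

/-- Every finite simple graph is `1`-`11`-represented by some concatenation of permutations of its
vertex set. -/
theorem result {V : Type} [Fintype V] [DecidableEq V] (G : SimpleGraph V) :
    PermRepresentable 1 G := by
  obtain ⟨l, hnd, hmem⟩ : ∃ l : List V, l.Nodup ∧ ∀ v, v ∈ l :=
    ⟨(Finset.univ : Finset V).toList, Finset.nodup_toList _, fun v => by simp⟩
  have hperm : ∀ p ∈ l :: perms G l, IsPerm p := by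
    intro p hp
    have h1 : p.Perm l := by
      rcases List.mem_cons.1 hp with rfl | hp
      · exact List.Perm.refl _
      · exact perms_perm G l p hp
    exact ⟨h1.nodup_iff.2 hnd, fun v => h1.mem_iff.2 (hmem v)⟩
  refine ⟨l :: perms G l, hperm, ?_, ?_⟩
  · intro v
    rw [List.mem_flatten]
    exact ⟨l, by simp, hmem v⟩
  · intro x y hxy
    have h1 : restrictTo x y (l :: perms G l).flatten =
        restrictTo x y l ++ ((perms G l).map (restrictTo x y)).flatten := by
      rw [List.flatten_cons, res_append]
      congr 1
      unfold restrictTo
      rw [List.filter_flatten]
    have h2 := occ11_flatten hxy ((perms G l).map (restrictTo x y)) (restrictTo x y l)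
      (restrictTo_perm hxy (hperm l (by simp))) (by
        intro q hq
        rw [List.mem_map] at hq
        obtain ⟨p, hp, rfl⟩ := hq
        exact restrictTo_perm hxy (hperm p (by simp [hp])))
    rw [h1, h2]
    have h3 := perms_chg G l x y hxy (hmem x) (hmem y) hnd
    constructor
    · intro h; rw [h3.1 h]
    · intro h
      by_contra h4
      rw [h3.2 h4] at h
      omega

end Pool.Agent.Results.MP_eaeafc_co.EveryGraph
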